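import Pool.Agent.Work.MP_db9399_sv.Interface

/-!
# MP_db9399, PHASE 2 of exception (iii), part (ii): SSE3 and GEO (owner helper38)

`Lt` = light vertices of the spots (outer degree at most `θ d` with `θ` very small). The outer edges
between two light vertices of different spots are coloured by SSE3, all other outer edges by the
machine. GEO: from the labels to `Sit`.
-/

set_option autoImplicit false

namespace Pool.Agent.Work.MP_db9399_sv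

open Finset Classical
open Pool.Agent.Work.MP_db9399_all (nb)
open Pool.Agent.Work.MP_db9399_bg (HPre)
open Pool.Agent.Work.MP_db9399_sl (InS Same Gout Gss Gin Gex Out)

universe u

/-- the edges between light vertices of different spots, without the edges of `EH` -/
def GsL {V : Type u} (G EH : SimpleGraph V) (Ys : Finset (Finset V)) (Lt : Finset V) :
    SimpleGraph V where
  Adj v w := (Gss G EH Ys).Adj v w ∧ v ∈ Lt ∧ w ∈ Lt
  symm := ⟨fun _ _ h => ⟨h.1.symm, h.2.2, h.2.1⟩⟩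
  loopless := ⟨fun v h => (Gss G EH Ys).loopless.irrefl v h.1⟩

/-- all other edges which are not inside a spot -/
def GxL {V : Type u} (G EH : SimpleGraph V) (Ys : Finset (Finset V)) (Lt : Finset V) :
    SimpleGraph V where
  Adj v w := (Gex G Ys).Adj v w ∧ ¬ (GsL G EH Ys Lt).Adj v w
  symm := ⟨fun _ _ h => ⟨h.1.symm, fun h' => h.2 h'.symm⟩⟩
  loopless := ⟨fun v h => (Gex G Ys).loopless.irrefl v h.1⟩

/-- SSE3: the edges between light vertices of different spots, with colours of the palette `Kss`;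
a bound `s d` for the new load and guards `Gd`. -/
def Stmt_SSE3 : Prop :=
  ∀ (δ π ρ s : ℝ), 0 < δ → 1 / 4 ≤ π → π < 1 / 3 → δ ≤ 1 / 1000 → 0 < ρ → 0 < s →
    ∃ (θ : ℝ) (d0 : ℕ), 0 < θ ∧
    ∀ {V : Type u} [Fintype V] (G : SimpleGraph V) (d k : ℕ) (Ys : Finset (Finset V))
      (UH Lt : Finset V) (c0 : V → Fin k) (EH : SimpleGraph V) (tu : V → Fin k)
      (c : V → Fin k) (t : V → V → Fin k) (E : V → Finset (Fin k)) (K0 : Finset (Fin k))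
      (C : Fin 3 → Finset (Fin k)) (p : V → Fin 3) (a : V → Bool) (Z : Finset V)
      (Pc : V → Finset (Fin k)) (Kss : Finset (Fin k)) (Gd : Finset V), d0 ≤ d →
      (∀ v, (nb G v).card ≤ d) → (∀ Y ∈ Ys, Y.card ≤ 2 * d) →
      (∀ Y ∈ Ys, ∀ Y' ∈ Ys, Y ≠ Y' → Disjoint Y Y') →
      (∀ Y ∈ Ys, ∀ v ∈ Y, v ∈ Lt → (1 - θ) * d ≤ ((nb G v ∩ Y).card : ℝ)) →
      HPre G UH c0 EH tu → (∀ v, (Pc v).card ≤ 2) → (∀ v, InS Ys v → Disjoint (E v) (Pc v)) →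
      Kss ⊆ K0 → (∀ i j, ρ * d ≤ ((Kss \ (C i ∪ C j)).card : ℝ)) →
      (∀ Y ∈ Ys, (((∑ v ∈ Y ∩ Gd, (nb (GsL G EH Ys Lt) v).card : ℕ)) : ℝ) ≤ θ * d) →
      Out δ π G (GxL G EH Ys Lt) (GsL G EH Ys Lt) EH d Ys UH c0 tu c t E K0 C p a Z →
      ∃ (t' : V → V → Fin k) (E' : V → Finset (Fin k)),
        (∀ v w, (GxL G EH Ys Lt).Adj v w → t' v w = t v w) ∧
        (∀ v w, (GsL G EH Ys Lt).Adj v w → t' v w ∈ Kss) ∧
        (∀ v, E v ⊆ E' v) ∧ (∀ v, v ∉ Lt → E' v = E v) ∧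
        (∀ v, E' v ⊆ E v ∪ Kss) ∧ (∀ v, InS Ys v → Disjoint (E' v) (Pc v)) ∧
        (∀ Y ∈ Ys, ∀ b, ((Y.filter (fun v => b ∈ E' v ∧ b ∉ E v)).card : ℝ) ≤ s * d) ∧
        (∀ Y ∈ Ys, ∀ b, ((Y ∩ Gd).filter (fun v => b ∈ E' v ∧ b ∉ E v)).card ≤ 1) ∧
        Out (2 * δ) π G (Gex G Ys) ⊥ EH d Ys UH c0 tu c t' E' K0 C p a Z

section defs
variable {V : Type u} [Fintype V] {k : ℕ}

/-- number of light neighbours in short spots -/
noncomputable def bt (G : SimpleGraph V) (Sh : Finset (Finset V)) (Lt : Finset V) (y : V) : ℕ :=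
  ((nb G y).filter (fun v => InS Sh v ∧ v ∈ Lt)).card

/-- the slots at the light vertices of the spot `Y` -/
noncomputable def slL (Y Lt : Finset V) (E : V → Finset (Fin k)) : Finset (V × Fin k) :=
  (slo Y E).filter (fun s => s.1 ∈ Lt)

/-- the hypotheses of `Sit` without the parts chosen by GEO -/
structure Bas (δ θ η : ℝ) (G EH : SimpleGraph V) (d : ℕ) (Ys Sh : Finset (Finset V))
    (UH X0 : Finset V) (c0 tu c : V → Fin k) (t : V → V → Fin k) (E F0 : V → Finset (Fin k))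
    (K0 : Finset (Fin k)) (μ : V → Fin k) (nd : Finset V → ℕ)
    (Ex : Finset V → Finset (Fin k)) : Prop where
  K0c : K0.card = d + 2
  deg : ∀ v, (nb G v).card ≤ d
  pre : HPre G UH c0 EH tu
  upp : ∀ Y ∈ Ys, Y.card ≤ 2 * d
  low : ∀ Y ∈ Sh, d ≤ 2 * Y.card
  dis : ∀ Y ∈ Ys, ∀ Y' ∈ Ys, Y ≠ Y' → Disjoint Y Y'
  sh : Sh ⊆ Ys
  UX : ∀ v ∈ UH, InS Ys v → v ∈ X0
  cor : Cor G EH d Ys UH c0 tu c t E F0 K0
  F0u : ∀ v ∈ UH, (F0 v).card ≤ 2
  Ec : ∀ v, InS Ys v → ((E v).card : ℝ) ≤ θ * d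
  Es : ∀ Y ∈ Ys, ((slo Y E).card : ℝ) ≤ η * d * d
  ld : ∀ Y ∈ Ys, ∀ b, ((Y.filter (fun v => b ∈ E v)).card : ℝ) ≤ δ * d
  mis : ∀ y, ¬ InS Ys y → Mis G c K0 μ t y
  ndd : ∀ Y ∈ Sh, (nd Y : ℝ) ≤ η * d
  Exc : ∀ Y ∈ Sh, (Ex Y).card ≤ nd Y + 4

/-- The colours and the labels. `vb b` = class index of the colour `b` (none: host colour),
`E1` = few colours with pairs of split labels `sy b`, `u v` = type of the light spot vertex `v`
(none: special), `j0` = class index of the colours between the light vertices, `sp v` = split label,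
`hM v y`: the missing colour of `y` may be a colour at `v`. -/
structure Lab {ι κ : Type} (ε2 : ℝ) (G EH : SimpleGraph V) (d : ℕ) (Ys Sh : Finset (Finset V))
    (UH X0 Lt : Finset V) (t : V → V → Fin k) (E : V → Finset (Fin k)) (μ : V → Fin k)
    (E1 : Finset (Fin k)) (vb : Fin k → Option ι) (sy : Fin k → κ × κ) (u : V → Option ι)
    (j0 : ι) (sp : V → κ) (hM : V → V → Prop) : Prop where
  typ : ∀ v i, InS Sh v → v ∈ Lt → v ∉ UH → u v = some i → ∀ b ∈ E v,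
    (b ∉ E1 ∧ (vb b = some i ∨ vb b = some j0)) ∨
      (b ∈ E1 ∧ (sp v = (sy b).1 ∨ sp v = (sy b).2))
  edg : ∀ v y i, InS Sh v → v ∈ Lt → v ∉ UH → ¬ InS Ys y → G.Adj v y → u v = some i →
    (t v y ∉ E1 ∧ vb (t v y) = some i) ∨
      (t v y ∈ E1 ∧ y ∉ UH ∧ (sp v = (sy (t v y)).1 ∨ sp v = (sy (t v y)).2) ∧
        (sp y = (sy (t v y)).1 ∨ sp y = (sy (t v y)).2))
  ss : ∀ Y ∈ Sh, ∀ b, vb b = some j0 → b ∉ E1 →
    ((Y.filter (fun v => v ∈ Lt ∧ b ∈ E v ∧ u v ≠ none ∧ u v ≠ some j0)).card : ℝ) ≤ ε2 * d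
  hst : ∀ v y i, InS Sh v → v ∈ Lt → v ∉ UH → ¬ InS Ys y → G.Adj v y → u v = some i →
    y ∈ UH ∨ ¬ hM v y → μ y ∉ E1 ∧ vb (μ y) ≠ some i ∧ vb (μ y) ≠ some j0
  den : ∀ y i s s', ¬ InS Ys y → ((((nb G y).filter (fun v => InS Sh v ∧ v ∈ Lt)).filter
    (fun v => u v = none ∨ u v = some j0 ∨ u v = some i ∨ sp v = s ∨ sp v = s' ∨
      v ∈ X0)).card : ℝ) ≤ ε2 * d

/-- the spot `Y` has many slots at light vertices and less demands than slots over `|Y|` -/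
structure Big {ι κ : Type} (c ε δ1 : ℝ) (G EH : SimpleGraph V) (d : ℕ)
    (Ys Sh : Finset (Finset V)) (UH X0 Lt : Finset V) (E : V → Finset (Fin k))
    (u : V → Option ι) (j0 : ι) (sp : V → κ) (hM : V → V → Prop) (nd : Finset V → ℕ)
    (Y : Finset V) : Prop where
  cnt : (nd Y : ℝ) * Y.card ≤ (1 - c) * (slL Y Lt E).card
  spc : (((slL Y Lt E).filter (fun s => u s.1 = none ∨ u s.1 = some j0 ∨ s.1 ∈ X0)).card : ℝ) ≤
    ε * (slL Y Lt E).card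
  gss : (((∑ v ∈ Y ∩ Lt, ((nb (Gss G EH Ys) v).filter (fun x => x ∈ X0 ∧ x ∉ UH)).card : ℕ)) :
    ℝ) ≤ ε * (slL Y Lt E).card
  spl : (((∑ v ∈ Y ∩ Lt, ((nb G v).filter (fun y => ¬ InS Ys y ∧ sp y = sp v)).card : ℕ)) : ℝ) ≤
    ε * (slL Y Lt E).card
  hMl : (((∑ v ∈ Y ∩ Lt, ((nb G v).filter (fun y => ¬ InS Ys y ∧ y ∉ UH ∧
      (bt G Sh Lt y : ℝ) ≤ δ1 * d ∧ hM v y)).card : ℕ)) : ℝ) ≤
    3 / 4 * ((∑ v ∈ Y ∩ Lt, ((nb G v).filter (fun y => ¬ InS Ys y ∧ y ∉ UH ∧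
      (bt G Sh Lt y : ℝ) ≤ δ1 * d)).card : ℕ) : ℝ) + ε * (slL Y Lt E).card

/-- the spot `Y` has at most two demands, caused by vertices of `UH` (outside the spots or in other
spots) -/
structure Sma {ι : Type} (ε : ℝ) (G : SimpleGraph V) (UH X0 Lt : Finset V) (u : V → Option ι)
    (j0 : ι) (nd : Finset V → ℕ) (Y : Finset V) : Prop where
  two : nd Y ≤ 2
  uh : (nd Y : ℝ) * (1 - ε) * Y.card ≤
    ((∑ v ∈ Y ∩ Lt, ((nb G v).filter (fun y => y ∉ Y ∧ y ∈ UH)).card : ℕ) : ℝ)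
  spc : (((Y ∩ Lt).filter (fun v => u v = none ∨ u v = some j0 ∨ v ∈ X0)).card : ℝ) ≤ ε * Y.card

end defs

/-- GEO: choice of `nL`, `nD`, `Pm`, `Hb`. Rich vertices have more than `δ1 d` light neighbours in
short spots; `y` is dominated by `Y` if it is rich and more than `3 / 4` of these neighbours are in
`Y`; `nD Y` = minimum of `nd Y` and the number of vertices dominated by `Y`. -/
def Stmt_GEO : Prop :=
  ∃ z : ℝ, 0 < z ∧ ∀ δ1 : ℝ, 0 < δ1 → ∃ ρ ε2 : ℝ, 0 < ρ ∧ 0 < ε2 ∧ ∀ c : ℝ, 0 < c → c ≤ 1 →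
    ∃ (ε : ℝ) (d0 : ℕ), 0 < ε ∧ ∀ (δ θ η : ℝ), 0 < δ → δ ≤ ε → 0 < θ → θ ≤ 1 / 100 → 0 < η →
    ∀ {V : Type u} [Fintype V] {k : ℕ} {ι κ : Type} (G EH : SimpleGraph V) (d : ℕ)
      (Ys Sh : Finset (Finset V)) (UH X0 Lt : Finset V) (c0 tu cc : V → Fin k)
      (t : V → V → Fin k) (E F0 : V → Finset (Fin k)) (K0 : Finset (Fin k)) (μ : V → Fin k)
      (nd : Finset V → ℕ) (Ex : Finset V → Finset (Fin k)) (E1 : Finset (Fin k))
      (vb : Fin k → Option ι) (sy : Fin k → κ × κ) (u : V → Option ι) (j0 : ι) (sp : V → κ)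
      (hM : V → V → Prop), d0 ≤ d →
      Bas δ θ η G EH d Ys Sh UH X0 c0 tu cc t E F0 K0 μ nd Ex →
      Lab ε2 G EH d Ys Sh UH X0 Lt t E μ E1 vb sy u j0 sp hM →
      (∀ Y ∈ Sh, 0 < nd Y → Big c ε δ1 G EH d Ys Sh UH X0 Lt E u j0 sp hM nd Y ∨
        Sma ε G UH X0 Lt u j0 nd Y) →
      ∃ (nL nD : Finset V → ℕ) (Pm : V → V → Prop) (Hb : Finset V → Finset V),
        Sit z δ1 ρ δ θ η G EH d Ys Sh UH X0 c0 tu cc t E F0 K0 μ Pm nL nD Ex Hb ∧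
        ∀ Y ∈ Sh, nd Y = nL Y + nD Y

end Pool.Agent.Work.MP_db9399_sv
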