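import Pool.Agent.Work.MP_db9399_sl.Interface

/-!
# MP_db9399, PHASE 2 of exception (iii), part (ii): services (owner helper38)

Short spots `|Y| < Δ`: parities. After THEOREM OUT and the spot-spot edges, the colours of some edges
outside the spots are exchanged, so that for every short spot `Y` with the set `F Y` of dead colours
at least `|F Y|` colours outside `F Y` are missing at an odd number of vertices of `Y`.
Definitions and the exact statement `Stmt_X` of every block. See `BLUEPRINT.md`.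
-/

set_option autoImplicit false

namespace Pool.Agent.Work.MP_db9399_sv

open Finset Classical
open Pool.Agent.Work.MP_db9399_all (nb)
open Pool.Agent.Work.MP_db9399_bg (HPre)
open Pool.Agent.Work.MP_db9399_sl (InS Same Gout Gss Gin Gex Out)

universe u

/-! ## SELQ: a local lemma for random choices -/

/-- SELQ (from `LLLI`): demands `j : J` choose `x : X` with probability `p j x`; `Cn` = conflicts of
two choices, `tc x i` = the choice `x` touches `i`. There is a choice without conflicts which touches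
every `i` at most `K` times. -/
def Stmt_SELQ : Prop :=
  ∀ (J X I : Type u) [Fintype J] [Fintype X] [Fintype I] (p : J → X → ℚ)
    (Cn : J → X → J → X → Prop) (tc : J → X → I → Prop) (K N : ℕ),
    (∀ j x, 0 ≤ p j x) → (∀ j, ∑ x, p j x = 1) →
    (∀ j x j' x', Cn j x j' x' → Cn j' x' j x) →
    (∀ j x, p j x ≠ 0 → ∑ j' ∈ univ.filter (fun j' => j' ≠ j),
      ∑ x' ∈ univ.filter (fun x' => Cn j x j' x'), p j' x' ≤ 1 / 40) →
    (∀ i, ∑ j, ∑ x ∈ univ.filter (fun x => tc j x i), p j x ≤ K / 40) →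
    (∀ j, (univ.filter (fun i => ∃ x, p j x ≠ 0 ∧ tc j x i)).card ≤ N) → 40 * N ≤ 2 ^ K →
    1 ≤ K →
    ∃ f : J → X, (∀ j, p j (f j) ≠ 0) ∧ (∀ j j', j ≠ j' → ¬ Cn j (f j) j' (f j')) ∧
      ∀ i, (univ.filter (fun j => tc j (f j) i)).card ≤ K

/-! ## States and coins -/

section defs
variable {V : Type u} [Fintype V] {k : ℕ}

/-- the part of `Out` which depends on the colours `t` and the sets `E` only; `F0 v`, `v ∈ UH` =
own colour of `v` and filling colours -/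
structure Cor (G EH : SimpleGraph V) (d : ℕ) (Ys : Finset (Finset V)) (UH : Finset V)
    (c0 tu c : V → Fin k) (t : V → V → Fin k) (E F0 : V → Finset (Fin k))
    (K0 : Finset (Fin k)) : Prop where
  ts : ∀ v w, t v w = t w v
  te : ∀ v w, EH.Adj v w → t v w = tu v
  tK : ∀ v w, (Gex G Ys).Adj v w → ¬ EH.Adj v w → t v w ∈ K0
  tc : ∀ v w, (Gex G Ys).Adj v w → (InS Ys v → v ∈ UH) → t v w ≠ c v
  ti : ∀ v, Set.InjOn (t v) {w | (Gex G Ys).Adj v w ∨ EH.Adj v w}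
  Et : ∀ v w, InS Ys v → (Gex G Ys).Adj v w ∨ EH.Adj v w → t v w ∈ E v
  EK : ∀ v, InS Ys v → v ∉ UH → E v ⊆ K0
  EU : ∀ v ∈ UH, InS Ys v → E v ⊆ insert (tu v) K0 ∧ c0 v ∉ E v
  Ed : ∀ v, InS Ys v → (E v).card + (nb (Gin G EH Ys) v).card = d
  cU : ∀ v ∈ UH, c v = c0 v
  F0d : ∀ v ∈ UH, InS Ys v → Disjoint (F0 v) (E v)
  F0c : ∀ v ∈ UH, InS Ys v → c0 v ∈ K0 → c0 v ∈ F0 v

/-- `μ y` is missing at the vertex `y` outside the spots -/
def Mis (G : SimpleGraph V) (c : V → Fin k) (K0 : Finset (Fin k)) (μ : V → Fin k)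
    (t : V → V → Fin k) (y : V) : Prop :=
  μ y ∈ K0 ∧ μ y ≠ c y ∧ ∀ w, G.Adj y w → t y w ≠ μ y

/-- Coins `(kind, v, w, x, α, β)`. The colour `α` of `E v`, `v` in a short spot, is replaced by `β`.
Kind 0: fake colour. Kind 1: edge `vw`, `w` outside the spots, `β = μ w`. Kind 2: edge `vx` between
two spots (`x ∈ UH` is allowed). Kind 3: the colours `α` of `vw` and `β` of `xw` are exchanged, `w`
outside the spots. -/
abbrev Cn (V : Type u) (k : ℕ) := Fin 4 × V × V × V × Fin k × Fin k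

def kd (q : Cn V k) : Fin 4 := q.1
def qv (q : Cn V k) : V := q.2.1
def qw (q : Cn V k) : V := q.2.2.1
def qx (q : Cn V k) : V := q.2.2.2.1
def al (q : Cn V k) : Fin k := q.2.2.2.2.1
def be (q : Cn V k) : Fin k := q.2.2.2.2.2

/-- the coin can be used; `Sh` = short spots, `X0` = vertices which may not be touched (except
vertices of `UH` by coins of kind 2) -/
def Vld (G EH : SimpleGraph V) (Ys Sh : Finset (Finset V)) (UH X0 : Finset V)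
    (K0 : Finset (Fin k)) (μ : V → Fin k) (t : V → V → Fin k) (E F0 : V → Finset (Fin k))
    (q : Cn V k) : Prop :=
  InS Sh (qv q) ∧ qv q ∉ X0 ∧ (qx q ∉ X0 ∨ (kd q = 2 ∧ qx q ∈ UH ∧ be q ∉ F0 (qx q))) ∧
  al q ∈ E (qv q) ∧ be q ∈ K0 ∧ be q ∉ E (qv q) ∧
  ((kd q = 0 ∧ qw q = qv q ∧ qx q = qv q ∧
      ∀ u, (Gex G Ys).Adj (qv q) u ∨ EH.Adj (qv q) u → t (qv q) u ≠ al q) ∨
    (kd q = 1 ∧ qx q = qv q ∧ ¬ InS Ys (qw q) ∧ G.Adj (qv q) (qw q) ∧ ¬ EH.Adj (qv q) (qw q) ∧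
      t (qv q) (qw q) = al q ∧ be q = μ (qw q)) ∨
    (kd q = 2 ∧ qw q = qx q ∧ InS Ys (qx q) ∧ (Gex G Ys).Adj (qv q) (qx q) ∧
      ¬ EH.Adj (qv q) (qx q) ∧ t (qv q) (qx q) = al q ∧ be q ∉ E (qx q)) ∨
    (kd q = 3 ∧ ¬ InS Ys (qw q) ∧ G.Adj (qv q) (qw q) ∧ ¬ EH.Adj (qv q) (qw q) ∧
      t (qv q) (qw q) = al q ∧ InS Sh (qx q) ∧ G.Adj (qx q) (qw q) ∧ ¬ EH.Adj (qx q) (qw q) ∧
      t (qx q) (qw q) = be q ∧ al q ∉ E (qx q) ∧ ¬ Same Ys (qv q) (qx q)))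

/-- the colours after the use of the coin -/
noncomputable def flt (t : V → V → Fin k) (q : Cn V k) : V → V → Fin k := fun a b =>
  if kd q = 0 then t a b
  else if (a = qv q ∧ b = qw q) ∨ (a = qw q ∧ b = qv q) then be q
  else if kd q = 3 ∧ ((a = qx q ∧ b = qw q) ∨ (a = qw q ∧ b = qx q)) then al q
  else t a b

/-- the sets `E` after the use of the coin -/
noncomputable def flE (E : V → Finset (Fin k)) (q : Cn V k) : V → Finset (Fin k) := fun a =>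
  if a = qv q then insert (be q) ((E a).erase (al q))
  else if kd q = 2 ∧ a = qx q then insert (be q) ((E a).erase (al q))
  else if kd q = 3 ∧ a = qx q then insert (al q) ((E a).erase (be q))
  else E a

/-- two coins do not disturb each other -/
def Cmp (q q' : Cn V k) : Prop :=
  qv q ≠ qv q' ∧ qv q ≠ qx q' ∧ qx q ≠ qv q' ∧ qx q ≠ qx q' ∧
    (kd q = 1 → kd q' = 1 → qw q ≠ qw q')

/-- all colours at `v`, without its own colour if `v ∉ UH` -/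
noncomputable def FE (UH : Finset V) (F0 E : V → Finset (Fin k)) (v : V) : Finset (Fin k) :=
  if v ∈ UH then F0 v ∪ E v else E v

/-- number of vertices of `Y` where `b` is missing -/
noncomputable def ms (Y UH : Finset V) (F0 E : V → Finset (Fin k)) (b : Fin k) : ℕ :=
  (Y.filter (fun v => b ∉ FE UH F0 E v)).card

/-- the slot `(v, α)` is usable: there is a coin of kind 1 allowed by `Pm`, or there are at least
`ρ d` coins of another kind -/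
def Usl (ρ : ℝ) (G EH : SimpleGraph V) (d : ℕ) (Ys Sh : Finset (Finset V)) (UH X0 : Finset V)
    (K0 : Finset (Fin k)) (μ : V → Fin k) (t : V → V → Fin k) (E F0 : V → Finset (Fin k))
    (Pm : V → V → Prop) (s : V × Fin k) : Prop :=
  (∃ q : Cn V k, kd q = 1 ∧ qv q = s.1 ∧ al q = s.2 ∧ Pm (qw q) s.1 ∧
      Vld G EH Ys Sh UH X0 K0 μ t E F0 q) ∨
    ∃ i : Fin 4, i ≠ 1 ∧ ρ * d ≤ ((univ.filter (fun q : Cn V k => kd q = i ∧ qv q = s.1 ∧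
      al q = s.2 ∧ Vld G EH Ys Sh UH X0 K0 μ t E F0 q)).card : ℝ)

/-- the slots of the spot `Y` -/
noncomputable def slo (Y : Finset V) (E : V → Finset (Fin k)) : Finset (V × Fin k) :=
  (Y ×ˢ univ).filter (fun s => s.2 ∈ E s.1)

/-- Everything about the situation. `nL Y`, `nD Y` = number of demands of `Y` treated by coins,
resp. by the dominated hubs `Hb Y`, `Ex Y` = excluded colours. `Es`: the total weight of every spot
is small. -/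
structure Sit (z δ1 ρ δ θ η : ℝ) (G EH : SimpleGraph V) (d : ℕ) (Ys Sh : Finset (Finset V))
    (UH X0 : Finset V) (c0 tu c : V → Fin k) (t : V → V → Fin k) (E F0 : V → Finset (Fin k))
    (K0 : Finset (Fin k)) (μ : V → Fin k) (Pm : V → V → Prop) (nL nD : Finset V → ℕ)
    (Ex : Finset V → Finset (Fin k)) (Hb : Finset V → Finset V) : Prop where
  K0c : K0.card = d + 2
  deg : ∀ v, (nb G v).card ≤ d
  EG : EH ≤ G
  upp : ∀ Y ∈ Ys, Y.card ≤ 2 * d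
  low : ∀ Y ∈ Sh, d ≤ 2 * Y.card
  dis : ∀ Y ∈ Ys, ∀ Y' ∈ Ys, Y ≠ Y' → Disjoint Y Y'
  sh : Sh ⊆ Ys
  UX : ∀ v ∈ UH, InS Ys v → v ∈ X0
  cor : Cor G EH d Ys UH c0 tu c t E F0 K0
  Ec : ∀ v, InS Ys v → ((E v).card : ℝ) ≤ θ * d
  Es : ∀ Y ∈ Ys, ((slo Y E).card : ℝ) ≤ η * d * d
  ld : ∀ Y ∈ Ys, ∀ b, ((Y.filter (fun v => b ∈ E v)).card : ℝ) ≤ δ * d
  mis : ∀ y, ¬ InS Ys y → Mis G c K0 μ t y
  pm : ∀ y, ((univ.filter (fun v => Pm y v)).card : ℝ) ≤ δ1 * d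
  ndd : ∀ Y ∈ Sh, (nL Y : ℝ) + nD Y ≤ η * d
  Exc : ∀ Y ∈ Sh, (Ex Y).card ≤ nL Y + nD Y + 4
  us : ∀ Y ∈ Sh, z * nL Y * Y.card ≤ (((slo Y E).filter (fun s => s.2 ∉ Ex Y ∧
    Usl ρ G EH d Ys Sh UH X0 K0 μ t E F0 Pm s)).card : ℝ)
  Hc : ∀ Y ∈ Sh, nD Y ≤ (Hb Y).card
  Hd : ∀ Y ∈ Sh, ∀ Y' ∈ Sh, Y ≠ Y' → Disjoint (Hb Y) (Hb Y')
  Hy : ∀ Y ∈ Sh, ∀ y ∈ Hb Y, ¬ InS Ys y ∧ (∀ v, ¬ Pm y v) ∧
    ρ * d ≤ ((Y.filter (fun v => v ∉ X0 ∧ G.Adj v y ∧ ¬ EH.Adj v y ∧ μ y ∉ E v)).card : ℝ)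

end defs

/-! ## FLIP: one coin -/

/-- FLIP: the effect of one coin. -/
def Stmt_FLIP : Prop :=
  ∀ {V : Type u} [Fintype V] {k : ℕ} (G EH : SimpleGraph V) (d : ℕ) (Ys Sh : Finset (Finset V))
    (UH X0 : Finset V) (c0 tu c : V → Fin k) (t : V → V → Fin k) (E F0 : V → Finset (Fin k))
    (K0 : Finset (Fin k)) (μ : V → Fin k) (q : Cn V k), EH ≤ G → Sh ⊆ Ys →
    (∀ Y ∈ Ys, ∀ Y' ∈ Ys, Y ≠ Y' → Disjoint Y Y') → (∀ v ∈ UH, InS Ys v → v ∈ X0) →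
    Cor G EH d Ys UH c0 tu c t E F0 K0 → Vld G EH Ys Sh UH X0 K0 μ t E F0 q →
    (kd q = 1 → Mis G c K0 μ t (qw q)) →
    Cor G EH d Ys UH c0 tu c (flt t q) (flE E q) F0 K0 ∧
    (∀ y, ¬ InS Ys y → (kd q = 1 → y ≠ qw q) → Mis G c K0 μ t y → Mis G c K0 μ (flt t q) y) ∧
    (∀ q', Vld G EH Ys Sh UH X0 K0 μ t E F0 q' → Cmp q q' →
      Vld G EH Ys Sh UH X0 K0 μ (flt t q) (flE E q) F0 q') ∧
    (∀ v, v ≠ qv q → v ≠ qx q → flE E q v = E v) ∧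
    (∀ Y ∈ Ys, qv q ∈ Y → (Odd (ms Y UH F0 (flE E q) (al q)) ↔ ¬ Odd (ms Y UH F0 E (al q)))) ∧
    (∀ Y ∈ Ys, ∀ b, (b ≠ al q ∧ b ≠ be q) ∨ (qv q ∉ Y ∧ qx q ∉ Y) →
      ms Y UH F0 (flE E q) b = ms Y UH F0 E b)

/-! ## SELC: selection of the coins -/

/-- SELC (from SELQ): every demand `i < nL Y` of a short spot gets its own coin, whose own colour is
touched by no other coin at this spot. -/
def Stmt_SELC : Prop :=
  ∀ z : ℝ, 0 < z → ∃ δ1 : ℝ, 0 < δ1 ∧ ∀ ρ : ℝ, 0 < ρ → ∃ (δ θ : ℝ), 0 < δ ∧ 0 < θ ∧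
    ∀ δ' : ℝ, 0 < δ' → ∃ (η : ℝ) (d0 : ℕ), 0 < η ∧
    ∀ {V : Type u} [Fintype V] [Nonempty V] {k : ℕ} (G EH : SimpleGraph V) (d : ℕ)
      (Ys Sh : Finset (Finset V)) (UH X0 : Finset V) (c0 tu c : V → Fin k)
      (t : V → V → Fin k) (E F0 : V → Finset (Fin k)) (K0 : Finset (Fin k)) (μ : V → Fin k)
      (Pm : V → V → Prop) (nL nD : Finset V → ℕ) (Ex : Finset V → Finset (Fin k))
      (Hb : Finset V → Finset V), d0 ≤ d →
      Sit z δ1 ρ δ θ η G EH d Ys Sh UH X0 c0 tu c t E F0 K0 μ Pm nL nD Ex Hb →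
      ∃ (f : Finset V → ℕ → Cn V k) (T : Finset V),
        (∀ Y ∈ Sh, ∀ i < nL Y, qv (f Y i) ∈ Y ∧ Vld G EH Ys Sh UH X0 K0 μ t E F0 (f Y i) ∧
          al (f Y i) ∉ Ex Y ∧ (kd (f Y i) = 1 → Pm (qw (f Y i)) (qv (f Y i))) ∧
          qv (f Y i) ∈ T ∧ qx (f Y i) ∈ T) ∧
        (∀ Y ∈ Sh, ∀ i < nL Y, ∀ Y' ∈ Sh, ∀ i' < nL Y', (Y, i) ≠ (Y', i') →
          Cmp (f Y i) (f Y' i') ∧ (qv (f Y' i') ∈ Y ∨ qx (f Y' i') ∈ Y →
            al (f Y i) ≠ al (f Y' i') ∧ al (f Y i) ≠ be (f Y' i'))) ∧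
        (∀ v ∈ T, v ∉ X0 ∨ v ∈ UH) ∧ ∀ Y ∈ Ys, ((Y ∩ T).card : ℝ) ≤ δ' * d

/-! ## SERV: all parities -/

/-- SERV (from SELC and FLIP): the coins of SELC (own colours at `Y`: `nL Y`), then `nD Y` coins of
kind 1 at the hubs in `Hb Y`, whose own colours are touched by no other coin; they are flipped
first. -/
def Stmt_SERV : Prop :=
  ∀ z : ℝ, 0 < z → ∃ δ1 : ℝ, 0 < δ1 ∧ ∀ ρ : ℝ, 0 < ρ → ∃ (δ θ : ℝ), 0 < δ ∧ 0 < θ ∧
    ∀ δ' : ℝ, 0 < δ' → ∃ (η : ℝ) (d0 : ℕ), 0 < η ∧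
    ∀ {V : Type u} [Fintype V] {k : ℕ} (G EH : SimpleGraph V) (d : ℕ)
      (Ys Sh : Finset (Finset V)) (UH X0 : Finset V) (c0 tu c : V → Fin k)
      (t : V → V → Fin k) (E F0 : V → Finset (Fin k)) (K0 : Finset (Fin k)) (μ : V → Fin k)
      (Pm : V → V → Prop) (nL nD : Finset V → ℕ) (Ex : Finset V → Finset (Fin k))
      (Hb : Finset V → Finset V), d0 ≤ d →
      Sit z δ1 ρ δ θ η G EH d Ys Sh UH X0 c0 tu c t E F0 K0 μ Pm nL nD Ex Hb →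
      ∃ (t' : V → V → Fin k) (E' : V → Finset (Fin k)) (T : Finset V),
        Cor G EH d Ys UH c0 tu c t' E' F0 K0 ∧ (∀ v, v ∉ T → E' v = E v) ∧
        (∀ v ∈ T, v ∉ X0 ∨ v ∈ UH) ∧ (∀ Y ∈ Ys, ((Y ∩ T).card : ℝ) ≤ δ' * d) ∧
        ∀ Y ∈ Sh, nL Y + nD Y ≤ ((K0 \ Ex Y).filter (fun b => Odd (ms Y UH F0 E' b))).card

end Pool.Agent.Work.MP_db9399_sv
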